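import Mathlib

set_option autoImplicit false

namespace Pool.Agent.Results.MP_2757db_lc.Square

open Filter Set Cardinal Topology

/-- A tree: the strict predecessors of each node are well-ordered. -/
def IsTree (T : Type) [PartialOrder T] : Prop := ∀ x : T, IsWellOrder (Iio x) (· < ·)

/-- The fine wedge topology, generated by the cones `V_t` and their complements. -/
def fw (T : Type) [PartialOrder T] : TopologicalSpace T :=
  TopologicalSpace.generateFrom ({s | ∃ t : T, s = Ici t} ∪ {s | ∃ t : T, s = (Ici t)ᶜ})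

def Gap (g : ℕ → ℕ) (a : Set ℕ) : Prop := ∃ᶠ n in atTop, ∀ m ∈ a, m < n ∨ g n ≤ m

theorem gaps {G : Set (ℕ → ℕ)} (h : G.Countable) : ∃ a : Set ℕ, a.Infinite ∧ aᶜ.Infinite ∧
    ∀ g ∈ G, Gap g a ∧ Gap g aᶜ := by
  obtain ⟨z, hz⟩ := (h.insert Nat.succ).exists_eq_range (insert_nonempty _ _)
  let β : ℕ → ℕ := fun k => k.rec 0 fun _ n => (Finset.range n).sup (fun i => z i n) + n + 1
  have b1 : StrictMono β := strictMono_nat_of_lt_succ fun k => Nat.lt_succ_of_le (Nat.le_add_left _ _)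
  have b2 : ∀ i k, i < k → z i (β k) ≤ β (k + 1) := fun i k e =>
    (Finset.le_sup (f := fun i => z i (β k)) (Finset.mem_range.2 (e.trans_le (b1.id_le k)))).trans
      ((Nat.le_add_right _ _).trans (Nat.le_succ _))
  have b3 : ∀ g ∈ insert Nat.succ G, Gap g {m | ∃ k, β (2 * k) ≤ m ∧ m < β (2 * k + 1)} ∧
      Gap g {m | ∃ k, β (2 * k) ≤ m ∧ m < β (2 * k + 1)}ᶜ := fun g hg => by
    obtain ⟨i, rfl⟩ := (hz ▸ hg : g ∈ range z)
    refine ⟨frequently_atTop.2 fun j => ⟨β (2 * (i + j) + 1),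
      le_trans (by omega : j ≤ 2 * (i + j) + 1) (b1.id_le _), fun m ⟨k, c1, c2⟩ => ?_⟩,
      frequently_atTop.2 fun j => ⟨β (2 * (i + j + 1)),
        le_trans (by omega : j ≤ 2 * (i + j + 1)) (b1.id_le _), fun m hm => ?_⟩⟩
    · exact (le_or_gt k (i + j)).imp (fun e => c2.trans_le (b1.monotone
        (by omega : 2 * k + 1 ≤ 2 * (i + j) + 1))) fun e =>
        (b2 i (2 * (i + j) + 1) (by omega)).trans
          ((b1.monotone (by omega : 2 * (i + j) + 1 + 1 ≤ 2 * k)).trans c1)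
    · exact (lt_or_ge m _).imp id fun e => (b2 i (2 * (i + j + 1)) (by omega)).trans
        (not_lt.1 fun e' => hm ⟨i + j + 1, e, e'⟩)
  have b4 := b3 _ (mem_insert _ _)
  exact ⟨_, Nat.frequently_atTop_iff_infinite.1 (b4.2.mono fun n hn => by_contra fun e => by
      have := hn n e; omega), Nat.frequently_atTop_iff_infinite.1 (b4.1.mono fun n hn e => by
      have := hn n e; omega), fun g hg => b3 g (Or.inr hg)⟩

def Tr (X : Set (Set ℕ)) : Type := {a : Set ℕ // a.Finite ∨ a ∈ X}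

instance (X : Set (Set ℕ)) : PartialOrder (Tr X) where
  le a b := a.1 ⊆ b.1 ∧ ∀ m ∈ a.1, ∀ n ∈ b.1, n ≤ m → n ∈ a.1
  le_refl _ := ⟨Subset.rfl, fun _ _ _ h _ => h⟩
  le_trans _ _ _ h1 h2 := ⟨h1.1.trans h2.1, fun m a n b c => h1.2 m a n (h2.2 m (h1.1 a) n b c) c⟩
  le_antisymm _ _ h1 h2 := Subtype.ext (h1.1.antisymm h2.1)

variable {X : Set (Set ℕ)}

theorem top {a b : Tr X} (h : a.1.Infinite) (e : a ≤ b) : b = a :=
  Subtype.ext (Subset.antisymm (fun n hn => let ⟨m, c1, c2⟩ := h.exists_gt n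
    e.2 m c1 n hn c2.le) e.1)

theorem tree : IsTree (Tr X) := fun x => by
  have k : ∀ a : Iio x, a.1.1 ⊆ x.1 ∧ ∀ m ∈ a.1.1, ∀ n ∈ x.1, n ≤ m → n ∈ a.1.1 := fun a =>
    (le_of_lt a.2 : a.1 ≤ x)
  have h1 : ∀ a b : Iio x, a ≤ b ∨ b ≤ a := fun a b => by
    by_cases h : a.1.1 ⊆ b.1.1
    · exact Or.inl ⟨h, fun m c1 n c2 => (k a).2 m c1 n ((k b).1 c2)⟩
    · obtain ⟨m, c1, c2⟩ := not_subset.1 h
      exact Or.inr ⟨fun n hn => (k a).2 m c1 n ((k b).1 hn) (not_lt.1 fun e =>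
        c2 ((k b).2 n hn m ((k a).1 c1) e.le)), fun m c1 n c2 => (k b).2 m c1 n ((k a).1 c2)⟩
  have : Std.Trichotomous (α := Iio x) (· < ·) := ⟨fun a b c1 c2 => (h1 a b).elim
    (fun e => e.eq_or_lt.resolve_right c1) fun e => (e.eq_or_lt.resolve_right c2).symm⟩
  have : IsWellFounded (Iio x) (· < ·) := ⟨Subrelation.wf (fun {a b} h => ncard_lt_ncard
    (ssubset_of_ne_of_subset (fun e => h.ne (Subtype.ext (Subtype.ext e))) h.le.1)
      (not_infinite.1 fun e => (ne_of_gt b.2) (top e (k b)))) (measure fun a : Iio x => a.1.1.ncard).wf⟩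
  exact {}

theorem nb {U : Set (Tr X)} (h : IsOpen[fw (Tr X)] U) : ∀ s ∈ U, ∃ c, ∀ b, s ≤ b →
    (∀ n ∈ b.1, n ∉ s.1 → c ≤ n) → b ∈ U := by
  induction h with
  | basic U hU =>
    rcases hU with ⟨t, rfl⟩ | ⟨t, rfl⟩
    · exact fun s hs => ⟨0, fun b e _ => le_trans hs e⟩
    · intro s hs
      by_cases h : t.1 ⊆ s.1
      · exact ⟨0, fun b e _ c => hs ⟨h, fun m c1 n c2 => c.2 m c1 n (e.1 c2)⟩⟩
      · obtain ⟨m, c1, c2⟩ := not_subset.1 h
        exact ⟨m + 1, fun b _ e c => (e m (c.1 c1) c2).not_gt m.lt_succ_self⟩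
  | univ => exact fun _ _ => ⟨0, fun _ _ _ => trivial⟩
  | inter U V _ _ h1 h2 =>
    exact fun s hs => let ⟨c, hc⟩ := h1 s hs.1; let ⟨d, hd⟩ := h2 s hs.2
      ⟨max c d, fun b e f => ⟨hc b e fun n x y => le_of_max_le_left (f n x y),
        hd b e fun n x y => le_of_max_le_right (f n x y)⟩⟩
  | sUnion S _ h =>
    exact fun s ⟨V, c1, c2⟩ => (h V c1 s c2).imp fun c hc b e f => ⟨V, c1, hc b e f⟩

def Tk : Type := ℕ → ℕ

theorem result (hCH : continuum.{0} = aleph 1) : ∃ (T : Type) (_ : PartialOrder T), IsTree T ∧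
    @LindelofSpace T (fw T) ∧
      ¬ @LindelofSpace (T × T) (@instTopologicalSpaceProd T T (fw T) (fw T)) := by
  obtain ⟨lo, _, ho⟩ := exists_ord_eq_type_lt Tk
  have hI : #Tk = aleph 1 := by rw [← hCH, Tk]; simp
  have h0 : ∀ j : Tk, (Iic j).Countable := fun j => by
    rw [← Iio_insert]
    exact ((countable_iff_lt_aleph_one _).2 (hI ▸ mk_Iio_lt j ho)).insert _
  choose a a1 a2 a3 using fun j => gaps (G := (Iic j : Set Tk)) (h0 j)
  let X := range a ∪ range fun j => (a j)ᶜ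
  letI := fw (Tr X)
  have o1 : ∀ t : Tr X, IsOpen (Ici t) := fun t =>
    TopologicalSpace.GenerateOpen.basic _ (Or.inl ⟨t, rfl⟩)
  have o2 : ∀ t : Tr X, IsClosed (Ici t) := fun t =>
    ⟨TopologicalSpace.GenerateOpen.basic _ (Or.inr ⟨t, rfl⟩)⟩
  have o3 : ∀ n, IsClosed {b : Tr X | n ∈ b.1} := fun n => by
    convert (((finite_Iic n).finite_subsets.preimage (f := fun t : Tr X => t.1)
      Subtype.val_injective.injOn).sep fun t => n ∈ t.1).isClosed_biUnion fun t _ => o2 t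
    ext b
    refine ⟨fun h => mem_iUnion₂.2 ⟨⟨b.1 ∩ Iic n, Or.inl ((finite_Iic n).inter_of_right _)⟩,
      ⟨inter_subset_right, h, mem_Iic.2 le_rfl⟩, inter_subset_left, fun m c1 k c2 c3 =>
        ⟨c2, c3.trans c1.2⟩⟩, fun h => ?_⟩
    obtain ⟨t, c1, c2⟩ := mem_iUnion₂.1 h
    exact c2.1 c1.2
  refine ⟨Tr X, inferInstance, tree, ⟨isLindelof_of_countable_subcover fun U u1 u2 => ?_⟩,
    fun h => ?_⟩
  · choose φ hφ using fun x => mem_iUnion.1 (u2 (mem_univ x))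
    choose c hc using fun s => nb (u1 (φ s)) s (hφ s)
    let g : Tk := fun n => (Finset.range n).powerset.sup fun s =>
      c ⟨s, Or.inl s.finite_toSet⟩
    refine ⟨φ '' (Subtype.val ⁻¹' ({s | s.Finite} ∪ (a '' Iic g ∪ (fun j => (a j)ᶜ) '' Iic g))),
      (((Set.Countable.setOf_finite).union (((h0 _).image _).union
        ((h0 _).image _))).preimage Subtype.val_injective).image _, fun x _ => ?_⟩
    have b1 : Gap g x.1 → x ∈ ⋃ i ∈ φ '' (Subtype.val ⁻¹' ({s | s.Finite} ∪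
        (a '' Iic g ∪ (fun j => (a j)ᶜ) '' Iic g))), U i := fun h => by
      classical
      obtain ⟨n, hn⟩ := h.exists
      let s := (Finset.range n).filter (· ∈ x.1)
      refine mem_iUnion₂.2 ⟨_, ⟨⟨s, Or.inl s.finite_toSet⟩, Or.inl s.finite_toSet, rfl⟩,
        hc _ x ⟨fun m hm => (Finset.mem_filter.1 hm).2, fun m c1 k c2 c3 =>
          Finset.mem_filter.2 ⟨Finset.mem_range.2 (c3.trans_lt (Finset.mem_range.1
            (Finset.mem_filter.1 c1).1)), c2⟩⟩ fun m c1 c2 => le_trans ?_ ((hn m c1).resolve_left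
              fun e => c2 (Finset.mem_filter.2 ⟨Finset.mem_range.2 e, c1⟩))⟩
      exact Finset.le_sup (f := fun s : Finset ℕ => c ⟨s, Or.inl s.finite_toSet⟩)
        (Finset.mem_powerset.2 (Finset.filter_subset _ _))
    rcases x.2 with e | ⟨j, e⟩ | ⟨j, e⟩
    · exact mem_iUnion₂.2 ⟨_, ⟨x, Or.inl e, rfl⟩, hφ x⟩
    · rcases le_total j g with f | f
      · exact mem_iUnion₂.2 ⟨_, ⟨x, Or.inr (Or.inl ⟨j, f, e⟩), rfl⟩, hφ x⟩
      · exact b1 (e ▸ (a3 j g f).1)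
    · rcases le_total j g with f | f
      · exact mem_iUnion₂.2 ⟨_, ⟨x, Or.inr (Or.inr ⟨j, f, e⟩), rfl⟩, hφ x⟩
      · exact b1 (e ▸ (a3 j g f).2)
  · have b1 : (Set.univ ∩ {p : Tr X × Tr X | p.2.1 = p.1.1ᶜ}).Countable := by
      refine h.isLindelof_univ.induction_on (p := fun t =>
        (t ∩ {p : Tr X × Tr X | p.2.1 = p.1.1ᶜ}).Countable)
        (fun s t e f => f.mono (inter_subset_inter_left _ e)) (fun S c1 c2 => ?_) fun p _ => ?_
      · rw [sUnion_eq_biUnion, iUnion₂_inter]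
        exact c1.biUnion c2
      rw [nhdsWithin_univ]
      by_cases c1 : p.1.1.Infinite
      · refine ⟨Prod.fst ⁻¹' Ici p.1, ((o1 _).preimage continuous_fst).mem_nhds (le_refl p.1),
          Set.Subsingleton.countable fun q c2 r c3 => ?_⟩
        have c4 := (top c1 c2.1).trans (top c1 c3.1).symm
        exact Prod.ext c4 (Subtype.ext (c2.2.trans (c4 ▸ c3.2.symm)))
      by_cases c5 : p.2.1.Infinite
      · refine ⟨Prod.snd ⁻¹' Ici p.2, ((o1 _).preimage continuous_snd).mem_nhds (le_refl p.2),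
          Set.Subsingleton.countable fun q c2 r c3 => ?_⟩
        have c4 := (top c5 c2.1).trans (top c5 c3.1).symm
        exact Prod.ext (Subtype.ext (compl_injective (c2.2.symm.trans (c4 ▸ c3.2)))) c4
      obtain ⟨n, hn⟩ := ((not_infinite.1 c1).union (not_infinite.1 c5)).exists_notMem
      refine ⟨{b : Tr X | n ∈ b.1}ᶜ ×ˢ {b : Tr X | n ∈ b.1}ᶜ,
        ((o3 n).isOpen_compl.prod (o3 n).isOpen_compl).mem_nhds
          ⟨fun e => hn (Or.inl e), fun e => hn (Or.inr e)⟩, Set.Subsingleton.countable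
            fun q c2 => (c2.1.2 ?_).elim⟩
      rw [mem_setOf_eq, c2.2]
      exact c2.1.1
    obtain ⟨z, hz⟩ := ((b1.image fun p => p.1.1).mono (s₁ := range a) (by
      rintro _ ⟨j, rfl⟩
      exact ⟨(⟨_, Or.inr (Or.inl ⟨j, rfl⟩)⟩, ⟨_, Or.inr (Or.inr ⟨j, rfl⟩)⟩), ⟨trivial, rfl⟩,
        rfl⟩)).exists_eq_range ⟨_, (id : ℕ → ℕ), rfl⟩
    choose f f1 f2 using fun k => let ⟨j, hj⟩ := (hz ▸ ⟨k, rfl⟩ : z k ∈ range a)
      (hj ▸ a1 j : (z k).Infinite).exists_gt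
    let g : Tk := fun n => (Finset.range n).sup (fun k => f k n) + 1
    obtain ⟨k, hk⟩ := (hz ▸ ⟨_, rfl⟩ : a g ∈ range z)
    obtain ⟨n, c1, c2⟩ := ((a3 g g (le_refl (α := Tk) g)).1.and_eventually
      (eventually_gt_atTop k)).exists
    exact (c1 _ (hk ▸ f1 k n)).elim (f2 k n).not_gt (Nat.lt_succ_of_le
      (Finset.le_sup (f := fun k => f k n) (Finset.mem_range.2 c2))).not_ge

end Pool.Agent.Results.MP_2757db_lc.Square
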